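import Mathlib

set_option autoImplicit false

/-!
Minimal 2-edge-strongly biconnected digraphs on `n` vertices have at most `7 (n - 1)` arcs.
-/

namespace Pool.Agent.Results.MP_93593e_co.ArcBound

open Finset Relation

set_option linter.unusedSectionVars false

/-! ### Definitions -/

section Defs

variable {V : Type*} [Fintype V] [DecidableEq V]

/-- The digraph with arc set `E` is strongly connected. -/
def StronglyConnected (E : Finset (V × V)) : Prop :=
  ∀ u v, ReflTransGen (fun a b => (a, b) ∈ E) u v

/-- The underlying undirected graph of the digraph with arc set `E`. -/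
def underlying (E : Finset (V × V)) : SimpleGraph V where
  Adj a b := a ≠ b ∧ ((a, b) ∈ E ∨ (b, a) ∈ E)
  symm := ⟨fun _ _ h => ⟨h.1.symm, h.2.symm⟩⟩
  loopless := ⟨fun _ h => h.1 rfl⟩

/-- Biconnected: connected, and deleting any single vertex leaves a connected graph. -/
def Biconnected (G : SimpleGraph V) : Prop := G.Connected ∧ ∀ x : V, (G.induce {x}ᶜ).Connected

/-- Strongly biconnected: strongly connected with biconnected underlying graph. -/
def StronglyBiconnected (E : Finset (V × V)) : Prop :=
  StronglyConnected E ∧ Biconnected (underlying E)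

/-- 2-edge-strongly biconnected. -/
def TwoEdgeStronglyBiconnected (E : Finset (V × V)) : Prop :=
  StronglyBiconnected E ∧ 3 ≤ Fintype.card V ∧ ∀ e ∈ E, StronglyBiconnected (E.erase e)

/-- Minimal 2-edge-strongly biconnected: no arc can be deleted. -/
def Minimal2ESB (E : Finset (V × V)) : Prop :=
  TwoEdgeStronglyBiconnected E ∧ ∀ e ∈ E, ¬ TwoEdgeStronglyBiconnected (E.erase e)

end Defs

/-! ### Maximum adjacency orderings and mixed cuts -/

section MA

variable {V : Type*} [Fintype V] [DecidableEq V] (W : V → V → Prop) (f : V → ℕ)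

open Classical in
/-- the number of neighbours of `u` with position less than `k` -/
noncomputable def N (u : V) (k : ℕ) : ℕ := (univ.filter (fun a => W u a ∧ f a < k)).card

/-- existence of a maximum adjacency ordering -/
theorem exists_ma : ∃ f : V → ℕ, Function.Injective f ∧ ∀ w u, f w < f u → N W f u (f w) ≤ N W f w (f w) := by
  classical
  have key : ∀ k : ℕ, k ≤ Fintype.card V → ∃ (S : Finset V) (f : V → ℕ), S.card = k ∧
      (∀ a ∈ S, ∀ b ∈ S, f a = f b → a = b) ∧ (∀ a ∈ S, f a < k) ∧
      ∀ w ∈ S, ∀ u, (u ∉ S ∨ f w < f u) →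
        (S.filter (fun a => W u a ∧ f a < f w)).card ≤ (S.filter (fun a => W w a ∧ f a < f w)).card := by
    intro k
    induction k with
    | zero =>
      intro _
      exact ⟨∅, fun _ => 0, rfl, by simp, by simp, by simp⟩
    | succ k ih =>
      intro hk
      obtain ⟨S, f, hS, hinj, hlt, hma⟩ := ih (by omega)
      have hne : (univ \ S).Nonempty := by
        rw [← card_pos, card_sdiff_of_subset (subset_univ S), card_univ]
        omega
      obtain ⟨w, hw, hmax⟩ := exists_max_image (univ \ S) (fun u => (S.filter (fun a => W u a)).card) hne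
      rw [mem_sdiff] at hw
      have hwS := hw.2
      refine ⟨insert w S, Function.update f w k, ?_, ?_, ?_, ?_⟩
      · rw [card_insert_of_notMem hwS, hS]
      · intro a ha b hb hab
        rw [mem_insert] at ha hb
        by_cases h1 : a = w
        · by_cases h2 : b = w
          · rw [h1, h2]
          · exfalso
            have hbS : b ∈ S := hb.resolve_left h2
            rw [h1, Function.update_self, Function.update_of_ne h2] at hab
            have := hlt b hbS
            omega
        · by_cases h2 : b = w
          · exfalso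
            have haS : a ∈ S := ha.resolve_left h1
            rw [h2, Function.update_self, Function.update_of_ne h1] at hab
            have := hlt a haS
            omega
          · rw [Function.update_of_ne h1, Function.update_of_ne h2] at hab
            exact hinj a (ha.resolve_left h1) b (hb.resolve_left h2) hab
      · intro a ha
        rw [mem_insert] at ha
        by_cases h1 : a = w
        · rw [h1, Function.update_self]; omega
        · rw [Function.update_of_ne h1]
          have := hlt a (ha.resolve_left h1)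
          omega
      · intro w' hw' u hu
        rw [mem_insert] at hw'
        by_cases h1 : w' = w
        · subst h1
          have hfw : ∀ v, (insert w' S).filter (fun a => W v a ∧ Function.update f w' k a < Function.update f w' k w')
              = S.filter (fun a => W v a) := by
            intro v
            ext a
            rw [mem_filter, mem_filter, mem_insert, Function.update_self]
            constructor
            · rintro ⟨ha, h2, h3⟩
              have h4 : a ≠ w' := by
                intro h
                rw [h, Function.update_self] at h3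
                omega
              exact ⟨ha.resolve_left h4, h2⟩
            · rintro ⟨ha, h2⟩
              have h4 : a ≠ w' := fun h => hwS (h ▸ ha)
              rw [Function.update_of_ne h4]
              exact ⟨Or.inr ha, h2, hlt a ha⟩
          rw [hfw, hfw]
          have huS : u ∉ S := by
            rcases hu with hu | hu
            · exact fun h => hu (mem_insert_of_mem h)
            · intro h
              rw [Function.update_self] at hu
              by_cases h5 : u = w'
              · exact hwS (h5 ▸ h)
              · rw [Function.update_of_ne h5] at hu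
                have := hlt u h
                omega
          exact hmax u (mem_sdiff.2 ⟨mem_univ _, huS⟩)
        · have hw'S : w' ∈ S := hw'.resolve_left h1
          have hfw : ∀ v, (insert w S).filter (fun a => W v a ∧ Function.update f w k a < Function.update f w k w')
              = S.filter (fun a => W v a ∧ f a < f w') := by
            intro v
            ext a
            rw [mem_filter, mem_filter, mem_insert, Function.update_of_ne h1]
            constructor
            · rintro ⟨ha, h2, h3⟩
              have h4 : a ≠ w := by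
                intro h
                rw [h, Function.update_self] at h3
                have := hlt w' hw'S
                omega
              rw [Function.update_of_ne h4] at h3
              exact ⟨ha.resolve_left h4, h2, h3⟩
            · rintro ⟨ha, h2, h3⟩
              have h4 : a ≠ w := fun h => hwS (h ▸ ha)
              rw [Function.update_of_ne h4]
              exact ⟨Or.inr ha, h2, h3⟩
          rw [hfw, hfw]
          apply hma w' hw'S
          by_cases h5 : u = w
          · left; rw [h5]; exact hwS
          · rcases hu with hu | hu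
            · left; exact fun h => hu (mem_insert_of_mem h)
            · right
              rw [Function.update_of_ne h1, Function.update_of_ne h5] at hu
              exact hu
  obtain ⟨S, f, hS, hinj, hlt, hma⟩ := key (Fintype.card V) (le_refl _)
  have hSu : S = univ := by
    rw [← card_eq_iff_eq_univ]; exact hS
  subst hSu
  refine ⟨f, fun a b h => hinj a (mem_univ _) b (mem_univ _) h, ?_⟩
  intro w u h
  have := hma w (mem_univ _) u (Or.inr h)
  unfold N
  exact this

variable {W f}

open Classical in
/-- neighbours of `u` on the same side, before position `k` and different from `x` -/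
noncomputable def dS (W : V → V → Prop) (f : V → ℕ) (x : V) (X : Finset V) (u : V) (k : ℕ) : ℕ :=
  (univ.filter (fun a => a ≠ x ∧ W u a ∧ f a < k ∧ (u ∈ X ↔ a ∈ X))).card

open Classical in
/-- neighbours of `u` on the other side, before position `k` and different from `x` -/
noncomputable def dO (W : V → V → Prop) (f : V → ℕ) (x : V) (X : Finset V) (u : V) (k : ℕ) : ℕ :=
  (univ.filter (fun a => a ≠ x ∧ W u a ∧ f a < k ∧ ¬ (u ∈ X ↔ a ∈ X))).card

open Classical in
/-- the cut pairs with both ends before position `k` -/
noncomputable def cut (W : V → V → Prop) (f : V → ℕ) (x : V) (X : Finset V) (k : ℕ) : Finset (V × V) :=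
  univ.filter (fun p => f p.1 < f p.2 ∧ f p.2 < k ∧ p.1 ≠ x ∧ p.2 ≠ x ∧ W p.1 p.2 ∧ ¬ (p.1 ∈ X ↔ p.2 ∈ X))

open Classical in
/-- all cut pairs -/
noncomputable def cutAll (W : V → V → Prop) (f : V → ℕ) (x : V) (X : Finset V) : Finset (V × V) :=
  univ.filter (fun p => f p.1 < f p.2 ∧ p.1 ≠ x ∧ p.2 ≠ x ∧ W p.1 p.2 ∧ ¬ (p.1 ∈ X ↔ p.2 ∈ X))

theorem mem_cutAll {x : V} {X : Finset V} {p : V × V} : p ∈ cutAll W f x X ↔
    f p.1 < f p.2 ∧ p.1 ≠ x ∧ p.2 ≠ x ∧ W p.1 p.2 ∧ ¬ (p.1 ∈ X ↔ p.2 ∈ X) := by
  classical
  unfold cutAll
  rw [mem_filter]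
  exact ⟨fun h => h.2, fun h => ⟨mem_univ _, h⟩⟩

open Classical in
theorem N_split (x : V) (X : Finset V) (u : V) (k : ℕ) :
    N W f u k = dS W f x X u k + dO W f x X u k + (if W u x ∧ f x < k then 1 else 0) := by
  have h1 : univ.filter (fun a => W u a ∧ f a < k) =
      (univ.filter (fun a => a ≠ x ∧ W u a ∧ f a < k ∧ (u ∈ X ↔ a ∈ X))) ∪
      ((univ.filter (fun a => a ≠ x ∧ W u a ∧ f a < k ∧ ¬ (u ∈ X ↔ a ∈ X))) ∪
      (univ.filter (fun a => a = x ∧ W u x ∧ f x < k))) := by
    ext a
    simp only [mem_filter, mem_univ, true_and, mem_union]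
    constructor
    · rintro ⟨h1, h2⟩
      by_cases hax : a = x
      · right; right
        exact ⟨hax, hax ▸ h1, hax ▸ h2⟩
      · by_cases hs : (u ∈ X ↔ a ∈ X)
        · exact Or.inl ⟨hax, h1, h2, hs⟩
        · exact Or.inr (Or.inl ⟨hax, h1, h2, hs⟩)
    · rintro (⟨_, h1, h2, _⟩ | ⟨_, h1, h2, _⟩ | ⟨h0, h1, h2⟩)
      · exact ⟨h1, h2⟩
      · exact ⟨h1, h2⟩
      · rw [h0]; exact ⟨h1, h2⟩
  have h2 : (univ.filter (fun a => a = x ∧ W u x ∧ f x < k)).card = if W u x ∧ f x < k then 1 else 0 := by
    split_ifs with h
    · rw [card_eq_one]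
      refine ⟨x, ?_⟩
      ext a
      simp only [mem_filter, mem_univ, true_and, mem_singleton]
      exact ⟨fun h => h.1, fun h' => ⟨h', h⟩⟩
    · rw [card_eq_zero, filter_eq_empty_iff]
      rintro a _ ⟨_, h3⟩
      exact h h3
  unfold N dS dO
  rw [h1, card_union_of_disjoint, card_union_of_disjoint, h2, add_assoc]
  · rw [disjoint_left]
    intro a ha hb
    simp only [mem_filter, mem_univ, true_and] at ha hb
    exact ha.1 hb.1
  · rw [disjoint_left]
    intro a ha hb
    simp only [mem_filter, mem_univ, true_and, mem_union] at ha hb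
    rcases hb with hb | hb
    · exact hb.2.2.2 ha.2.2.2
    · exact ha.1 hb.1

/-- cut pairs before `b` together with the cut pairs ending in `b` -/
theorem cut_step (hW : ∀ a b, W a b → W b a) {x : V} {X : Finset V} {b : V} (hbx : b ≠ x) {k : ℕ}
    {T : Finset (V × V)} {j : ℕ} (hkj : k ≤ f b) (hj : j ≤ f b)
    (hT : ∀ p : V × V, f p.1 < f p.2 → f p.2 ≤ f b → p.1 ≠ x → p.2 ≠ x → W p.1 p.2 →
      ¬ (p.1 ∈ X ↔ p.2 ∈ X) → p ∈ T) :
    (cut W f x X k).card + dO W f x X b j ≤ T.card := by
  classical
  have hinj : Function.Injective (fun a : V => ((a, b) : V × V)) := fun a a' h => congrArg Prod.fst h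
  have h1 : (cut W f x X k).card + dO W f x X b j =
      (cut W f x X k ∪ (univ.filter (fun a => a ≠ x ∧ W b a ∧ f a < j ∧ ¬ (b ∈ X ↔ a ∈ X))).image
        (fun a => ((a, b) : V × V))).card := by
    rw [card_union_of_disjoint, card_image_of_injective _ hinj]
    · rfl
    · rw [disjoint_left]
      intro p hp hq
      unfold cut at hp
      rw [mem_filter] at hp
      rw [mem_image] at hq
      obtain ⟨a, _, rfl⟩ := hq
      have := hp.2.2.1
      simp only at this
      omega
  rw [h1]
  apply card_le_card
  intro p hp
  rw [mem_union] at hp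
  rcases hp with hp | hp
  · unfold cut at hp
    rw [mem_filter] at hp
    obtain ⟨_, h1, h2, h3, h4, h5, h6⟩ := hp
    exact hT p h1 (by omega) h3 h4 h5 h6
  · rw [mem_image] at hp
    obtain ⟨a, ha, rfl⟩ := hp
    rw [mem_filter] at ha
    obtain ⟨_, h1, h2, h3, h4⟩ := ha
    exact hT _ (by simp only; omega) (le_refl _) h1 hbx (hW _ _ h2) (fun h => h4 h.symm)

open Classical in
/-- the key inequality for maximum adjacency orderings -/
theorem key_ineq (hW : ∀ a b, W a b → W b a) (hf : Function.Injective f)
    (hma : ∀ w u, f w < f u → N W f u (f w) ≤ N W f w (f w)) (x : V) (X : Finset V) :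
    ∀ k : ℕ, ∀ u, u ≠ x → k ≤ f u →
      (∀ a, a ≠ x → f a < k → (u ∈ X ↔ a ∈ X) → ∃ b, b ≠ x ∧ f a < f b ∧ f b < k ∧ ¬ (u ∈ X ↔ b ∈ X)) →
      dS W f x X u k + (if W u x ∧ f x < k then 1 else 0) ≤ (cut W f x X k).card + (if f x < k then 1 else 0) := by
  intro k
  induction k using Nat.strong_induction_on with
  | _ k ih =>
    intro u hux hku hlast
    by_cases hex : ∃ a, a ≠ x ∧ f a < k ∧ (u ∈ X ↔ a ∈ X)
    · -- the last vertex on the side of `u`
      obtain ⟨a, ha, hamax⟩ := exists_max_image (univ.filter (fun a => a ≠ x ∧ f a < k ∧ (u ∈ X ↔ a ∈ X)))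
        f (by
          obtain ⟨a, ha⟩ := hex
          exact ⟨a, mem_filter.2 ⟨mem_univ _, ha⟩⟩)
      rw [mem_filter] at ha
      obtain ⟨_, hax, hak, haX⟩ := ha
      -- the next vertex different from `x`
      obtain ⟨b, hb, hbmin⟩ := exists_min_image (univ.filter (fun b => b ≠ x ∧ f a < f b ∧ f b < k))
        f (by
          obtain ⟨b, hb1, hb2, hb3, _⟩ := hlast a hax hak haX
          exact ⟨b, mem_filter.2 ⟨mem_univ _, hb1, hb2, hb3⟩⟩)
      rw [mem_filter] at hb
      obtain ⟨_, hbx, hab, hbk⟩ := hb
      have hbX : ¬ (u ∈ X ↔ b ∈ X) := by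
        intro h
        have := hamax b (mem_filter.2 ⟨mem_univ _, hbx, hbk, h⟩)
        omega
      have habX : ¬ (b ∈ X ↔ a ∈ X) := by
        intro h
        exact hbX (haX.trans h.symm)
      have hbelow : ∀ a', a' ≠ x → f a' < f b → f a' ≤ f a := by
        intro a' h1 h2
        by_contra h3
        have := hbmin a' (mem_filter.2 ⟨mem_univ _, h1, by omega, by omega⟩)
        omega
      have hIH := ih (f b) hbk b hbx (le_refl _) (by
        intro a' h1 h2 h3
        refine ⟨a, hax, ?_, hab, habX⟩
        have h4 := hbelow a' h1 h2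
        have h5 : f a' ≠ f a := by
          intro h
          have := hf h
          rw [this] at h3
          exact habX h3
        omega)
      have hMA := hma b u (by omega)
      rw [N_split x X u, N_split x X b] at hMA
      have hdS : dS W f x X u k = dS W f x X u (f b) := by
        unfold dS
        congr 1
        ext a'
        simp only [mem_filter, mem_univ, true_and]
        constructor
        · rintro ⟨h1, h2, h3, h4⟩
          have := hamax a' (mem_filter.2 ⟨mem_univ _, h1, h3, h4⟩)
          exact ⟨h1, h2, by omega, h4⟩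
        · rintro ⟨h1, h2, h3, h4⟩
          exact ⟨h1, h2, by omega, h4⟩
      have hcut : (cut W f x X (f b)).card + dO W f x X b (f b) ≤ (cut W f x X k).card := by
        apply cut_step hW hbx (le_refl _) (le_refl _)
        intro p h1 h2 h3 h4 h5 h6
        unfold cut
        rw [mem_filter]
        exact ⟨mem_univ _, h1, by omega, h3, h4, h5, h6⟩
      have hxb : f x ≠ f b := fun h => hbx (hf h).symm
      rw [hdS]
      by_cases hx1 : f x < f b
      · have hx2 : f x < k := by omega
        simp only [hx1, hx2, and_true, if_true] at hIH hMA ⊢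
        split_ifs at hIH hMA ⊢ <;> omega
      · simp only [hx1, and_false, if_false] at hIH hMA
        by_cases hx2 : f x < k
        · simp only [hx2, and_true, if_true]
          split_ifs <;> omega
        · simp only [hx2, and_false, if_false]
          omega
    · have h0 : dS W f x X u k = 0 := by
        unfold dS
        rw [card_eq_zero, filter_eq_empty_iff]
        rintro a _ ⟨h1, _, h2, h3⟩
        exact hex ⟨a, h1, h2, h3⟩
      rw [h0]
      by_cases hx2 : f x < k
      · simp only [hx2, and_true, if_true]
        split_ifs <;> omega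
      · simp only [hx2, and_false, if_false]
        omega

/-- the rank of a pair that crosses a mixed cut is at most one more than the size of the cut -/
theorem rank_le (hW : ∀ a b, W a b → W b a) (hf : Function.Injective f)
    (hma : ∀ w u, f w < f u → N W f u (f w) ≤ N W f w (f w)) (x : V) (X : Finset V) {s t : V}
    (hst : (s, t) ∈ cutAll W f x X) : N W f t (f s + 1) ≤ (cutAll W f x X).card + 1 := by
  classical
  unfold cutAll at hst
  rw [mem_filter] at hst
  obtain ⟨_, h1, h2, h3, h4, h5⟩ := hst
  simp only at h1 h2 h3 h4 h5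
  have hk := key_ineq hW hf hma x X (f s + 1) t h3 (by omega) (by
    intro a hax hak haX
    refine ⟨s, h2, ?_, by omega, fun h => h5 h.symm⟩
    have h6 : f a ≠ f s := by
      intro h
      have := hf h
      rw [this] at haX
      exact h5 haX.symm
    omega)
  have hcut : (cut W f x X (f s + 1)).card + dO W f x X t (f s + 1) ≤ (cutAll W f x X).card := by
    apply cut_step hW h3 (by omega) (by omega)
    intro p h1 h2 h3 h4 h5 h6
    unfold cutAll
    rw [mem_filter]
    exact ⟨mem_univ _, h1, h3, h4, h5, h6⟩
  rw [N_split x X t]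
  split_ifs at hk ⊢ <;> omega

theorem rank_pos (hW : ∀ a b, W a b → W b a) {s t : V} (h : W s t) : 1 ≤ N W f t (f s + 1) := by
  classical
  unfold N
  rw [Nat.succ_le_iff, card_pos]
  exact ⟨s, mem_filter.2 ⟨mem_univ _, hW _ _ h, by omega⟩⟩

theorem rank_lt (hW : ∀ a b, W a b → W b a) {s s' t : V} (h' : W s' t) (hlt : f s < f s') :
    N W f t (f s + 1) < N W f t (f s' + 1) := by
  classical
  unfold N
  apply card_lt_card
  refine ⟨?_, ?_⟩
  · intro a ha
    rw [mem_filter] at ha ⊢
    exact ⟨mem_univ _, ha.2.1, by omega⟩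
  · intro hsub
    have h1 : s' ∈ univ.filter (fun a => W t a ∧ f a < f s' + 1) :=
      mem_filter.2 ⟨mem_univ _, hW _ _ h', by omega⟩
    have h2 := hsub h1
    rw [mem_filter] at h2
    omega

/-- counting pairs of bounded rank whose later end avoids a set of vertices -/
theorem count_rank (hW : ∀ a b, W a b → W b a) (hf : Function.Injective f) (P : Finset (V × V))
    (c : ℕ) (Z : Finset V) (hP : ∀ p ∈ P, f p.1 < f p.2 ∧ W p.1 p.2 ∧ N W f p.2 (f p.1 + 1) ≤ c ∧ p.2 ∉ Z) :
    P.card ≤ (Fintype.card V - Z.card) * c := by
  classical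
  have h1 : P.card ≤ ((univ \ Z) ×ˢ (Icc 1 c)).card := by
    apply card_le_card_of_injOn (fun p => (p.2, N W f p.2 (f p.1 + 1)))
    · intro p hp
      obtain ⟨_, h2, h3, h4⟩ := hP p hp
      rw [coe_product, Set.mem_prod, mem_coe, mem_coe, mem_sdiff, mem_Icc]
      exact ⟨⟨mem_univ _, h4⟩, rank_pos hW h2, h3⟩
    · intro p hp q hq hpq
      obtain ⟨_, h2, _, _⟩ := hP p hp
      obtain ⟨_, h3, _, _⟩ := hP q hq
      have e1 : p.2 = q.2 := congrArg Prod.fst hpq
      have e2 : N W f p.2 (f p.1 + 1) = N W f q.2 (f q.1 + 1) := congrArg Prod.snd hpq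
      rw [e1] at e2 h2
      apply Prod.ext _ e1
      by_contra hne
      have hne' : f p.1 ≠ f q.1 := fun h => hne (hf h)
      rcases lt_or_gt_of_ne hne' with h | h
      · have := rank_lt hW h3 h; omega
      · have := rank_lt hW h2 h; omega
  rw [card_product, card_sdiff_of_subset (subset_univ Z), card_univ, Nat.card_Icc] at h1
  simpa using h1

end MA

/-! ### Tight sets -/

section Tight

variable {V : Type*} [Fintype V] [DecidableEq V]

/-- the arcs entering `X` -/
def din (E : Finset (V × V)) (X : Finset V) : Finset (V × V) := E.filter (fun a => a.1 ∉ X ∧ a.2 ∈ X)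

theorem submod (E : Finset (V × V)) (X Y : Finset V) :
    (din E (X ∩ Y)).card + (din E (X ∪ Y)).card ≤ (din E X).card + (din E Y).card := by
  unfold din
  rw [card_filter, card_filter, card_filter, card_filter, ← sum_add_distrib, ← sum_add_distrib]
  apply sum_le_sum
  intro a _
  simp only [mem_inter, mem_union]
  by_cases h1 : a.1 ∈ X <;> by_cases h2 : a.1 ∈ Y <;> by_cases h3 : a.2 ∈ X <;> by_cases h4 : a.2 ∈ Y <;>
    simp [h1, h2, h3, h4]

open Classical in
/-- Arcs outside the symmetric graph `G` that enter a tight set avoiding the root. -/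
noncomputable def crit (E : Finset (V × V)) (r : V) (G : SimpleGraph V) : Finset (V × V) :=
  E.filter (fun e => ¬ G.Adj e.1 e.2 ∧ ∃ X : Finset V, r ∉ X ∧ e ∈ din E X ∧ (din E X).card = 2)

theorem mem_crit {E : Finset (V × V)} {r : V} {G : SimpleGraph V} {e : V × V} : e ∈ crit E r G ↔
    e ∈ E ∧ ¬ G.Adj e.1 e.2 ∧ ∃ X : Finset V, r ∉ X ∧ e ∈ din E X ∧ (din E X).card = 2 := by
  classical
  unfold crit
  rw [mem_filter]

theorem crit_bound (E : Finset (V × V)) (r : V) (G : SimpleGraph V) [Fintype G.ConnectedComponent]
    (hG : ∀ a b, G.Adj a b → (a, b) ∈ E)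
    (hE : ∀ X : Finset V, X.Nonempty → r ∉ X → 2 ≤ (din E X).card) :
    (crit E r G).card + 2 ≤ Fintype.card V + Fintype.card G.ConnectedComponent := by
  classical
  -- the minimal tight set at `v`
  let tight : V → Finset V → Prop := fun v X => v ∈ X ∧ r ∉ X ∧ (din E X).card = 2
  have hinter : ∀ v X Y, tight v X → tight v Y → tight v (X ∩ Y) := by
    rintro v X Y ⟨h1, h2, h3⟩ ⟨h4, h5, h6⟩
    have e1 : v ∈ X ∩ Y := mem_inter.2 ⟨h1, h4⟩
    have e2 : r ∉ X ∩ Y := fun h => h2 (mem_inter.1 h).1
    have e3 : r ∉ X ∪ Y := fun h => (mem_union.1 h).elim h2 h5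
    have e4 := hE _ ⟨v, e1⟩ e2
    have e5 := hE _ ⟨v, mem_union_left _ h1⟩ e3
    have e6 := submod E X Y
    exact ⟨e1, e2, by omega⟩
  have hT : ∀ v, (∃ X, tight v X) → ∃ T, tight v T ∧ ∀ X, tight v X → T ⊆ X := by
    intro v hv
    obtain ⟨X0, hX0⟩ := hv
    obtain ⟨T, hT, hTmin⟩ := exists_min_image (univ.filter (fun X => tight v X)) card
      ⟨X0, mem_filter.2 ⟨mem_univ _, hX0⟩⟩
    rw [mem_filter] at hT
    refine ⟨T, hT.2, ?_⟩
    intro X hX
    have h1 := hinter v T X hT.2 hX
    have h2 := hTmin _ (mem_filter.2 ⟨mem_univ _, h1⟩)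
    have h3 : T ∩ X = T := eq_of_subset_of_card_le inter_subset_left h2
    rw [← h3]
    exact inter_subset_right
  choose! T hT1 hT2 using hT
  -- the critical arcs with head `v`
  let I : V → Finset (V × V) := fun v => (crit E r G).filter (fun e => e.2 = v)
  have hI : ∀ v, ∀ e ∈ I v, tight v (T v) ∧ e ∈ din E (T v) ∧ ¬ G.Adj e.1 e.2 := by
    intro v e he
    rw [mem_filter] at he
    obtain ⟨he, rfl⟩ := he
    unfold crit at he
    rw [mem_filter] at he
    obtain ⟨heE, hadj, X, hrX, heX, hX2⟩ := he
    have hd := heX
    unfold din at hd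
    rw [mem_filter] at hd
    have htX : tight e.2 X := ⟨hd.2.2, hrX, hX2⟩
    have h1 := hT1 e.2 ⟨X, htX⟩
    have h2 := hT2 e.2 ⟨X, htX⟩ X htX
    refine ⟨h1, ?_, hadj⟩
    unfold din
    rw [mem_filter]
    exact ⟨heE, fun h => hd.2.1 (h2 h), h1.1⟩
  have hIle : ∀ v, (I v).card ≤ 2 := by
    intro v
    by_cases hne : (I v).Nonempty
    · obtain ⟨e, he⟩ := hne
      have h1 := (hI v e he).1.2.2
      rw [← h1]
      exact card_le_card (fun e he => (hI v e he).2.1)
    · rw [not_nonempty_iff_eq_empty] at hne
      rw [hne]; simp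
  have hIr : (I r).card = 0 := by
    rw [card_eq_zero]
    by_contra hne
    obtain ⟨e, he⟩ := nonempty_iff_ne_empty.2 hne
    have h1 := (hI r e he).1
    exact h1.2.1 h1.1
  -- vertices with two critical arcs
  let B : Finset V := univ.filter (fun v => (I v).card = 2)
  have hBfull : ∀ v ∈ B, tight v (T v) ∧ din E (T v) = I v ∧ ∀ w, G.Reachable v w → w ∈ T v := by
    intro v hv
    rw [mem_filter] at hv
    have hne : (I v).Nonempty := by rw [← card_pos]; omega
    obtain ⟨e, he⟩ := hne
    have h1 := (hI v e he).1
    have h2 : I v = din E (T v) := by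
      apply eq_of_subset_of_card_le (fun e he => (hI v e he).2.1)
      rw [h1.2.2, hv.2]
    refine ⟨h1, h2.symm, ?_⟩
    intro w hw
    rw [SimpleGraph.reachable_iff_reflTransGen] at hw
    induction hw with
    | refl => exact h1.1
    | @tail b c _ hbc ih =>
      by_contra hc
      have h3 : (c, b) ∈ din E (T v) := by
        unfold din
        rw [mem_filter]
        exact ⟨hG _ _ hbc.symm, hc, ih⟩
      rw [← h2] at h3
      exact (hI v _ h3).2.2 hbc.symm
  have hBcard : B.card + 1 ≤ Fintype.card G.ConnectedComponent := by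
    have h1 : (B.image G.connectedComponentMk).card = B.card := by
      apply card_image_of_injOn
      intro v hv v' hv' hvv
      by_contra hne
      have hr : G.Reachable v v' := SimpleGraph.ConnectedComponent.exact hvv
      obtain ⟨t1, d1, r1⟩ := hBfull v hv
      obtain ⟨t2, d2, r2⟩ := hBfull v' hv'
      have m1 : v' ∈ T v := r1 v' hr
      have m2 : v ∈ T v' := r2 v hr.symm
      have s1 : T v ⊆ T v' := hT2 v ⟨_, t1⟩ _ ⟨m2, t2.2.1, t2.2.2⟩
      have s2 : T v' ⊆ T v := hT2 v' ⟨_, t2⟩ _ ⟨m1, t1.2.1, t1.2.2⟩
      have s3 : T v = T v' := Subset.antisymm s1 s2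
      have s4 : I v = I v' := by rw [← d1, ← d2, s3]
      have hv2 := (mem_filter.1 hv).2
      have hne2 : (I v).Nonempty := by rw [← card_pos]; omega
      obtain ⟨e, he⟩ := hne2
      have e1 : e.2 = v := (mem_filter.1 he).2
      rw [s4] at he
      have e2 : e.2 = v' := (mem_filter.1 he).2
      exact hne (e1.symm.trans e2)
    have h2 : G.connectedComponentMk r ∉ B.image G.connectedComponentMk := by
      intro h
      rw [mem_image] at h
      obtain ⟨v, hv, hvr⟩ := h
      obtain ⟨t1, _, r1⟩ := hBfull v hv
      exact t1.2.1 (r1 r (SimpleGraph.ConnectedComponent.exact hvr))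
    have h3 : (insert (G.connectedComponentMk r) (B.image G.connectedComponentMk)).card ≤
        Fintype.card G.ConnectedComponent := card_le_univ _
    rw [card_insert_of_notMem h2, h1] at h3
    exact h3
  have hsum : (crit E r G).card = ∑ v, (I v).card :=
    card_eq_sum_card_fiberwise (s := crit E r G) (f := fun e : V × V => e.2) (t := univ)
      (fun _ _ => mem_univ _)
  have hle : ∑ v, (I v).card ≤ ∑ v, ((if v = r then 0 else 1) + if v ∈ B then 1 else 0) := by
    apply sum_le_sum
    intro v _
    by_cases hvr : v = r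
    · rw [hvr, hIr]; exact Nat.zero_le _
    · have h1 := hIle v
      have h2 : v ∈ B ↔ (I v).card = 2 := by
        rw [mem_filter]; simp
      simp only [hvr, if_false]
      by_cases h3 : v ∈ B
      · simp only [h3, if_true]; omega
      · simp only [h3, if_false]
        rw [h2] at h3
        omega
  have hr1 : ∑ v : V, (if v = r then 0 else 1) + 1 = Fintype.card V := by
    have h1 : ∑ v : V, (if v = r then 0 else 1) + ∑ v : V, (if v = r then 1 else 0) = Fintype.card V := by
      rw [← sum_add_distrib]
      have : ∀ v : V, ((if v = r then 0 else 1) + (if v = r then 1 else 0) : ℕ) = 1 := by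
        intro v; split_ifs <;> rfl
      simp_rw [this]
      simp
    have h2 : ∑ v : V, (if v = r then 1 else 0) = 1 := by simp
    omega
  have hB1 : ∑ v : V, (if v ∈ B then 1 else 0) = B.card := by simp
  rw [sum_add_distrib, hB1] at hle
  omega

end Tight

/-! ### Cuts and connectivity -/

section Cuts

variable {V : Type*} [Fintype V] [DecidableEq V]

/-- the arcs crossing the mixed cut given by the vertex `x` and the set `X` -/
def cross (E : Finset (V × V)) (x : V) (X : Finset V) : Finset (V × V) :=
  E.filter (fun a => a.1 ≠ x ∧ a.2 ≠ x ∧ ¬ (a.1 ∈ X ↔ a.2 ∈ X))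

/-- both sides of the mixed cut are nonempty -/
def Valid (x : V) (X : Finset V) : Prop := (∃ a, a ≠ x ∧ a ∈ X) ∧ ∃ b, b ≠ x ∧ b ∉ X

theorem din_of_sc {E : Finset (V × V)} (h : StronglyConnected E) {X : Finset V} {u v : V}
    (hu : u ∉ X) (hv : v ∈ X) : ∃ e, e ∈ din E X := by
  by_contra hno
  have key : ∀ w, ReflTransGen (fun a b => (a, b) ∈ E) u w → w ∉ X := by
    intro w hw
    induction hw with
    | refl => exact hu
    | @tail b c _ hbc ih =>
      intro hc
      exact hno ⟨(b, c), by unfold din; rw [mem_filter]; exact ⟨hbc, ih, hc⟩⟩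
  exact key v (h u v) hv

theorem cross_of_bi {E : Finset (V × V)} {x : V} (h : ((underlying E).induce {x}ᶜ).Connected)
    {X : Finset V} (hX : Valid x X) : ∃ e, e ∈ cross E x X := by
  obtain ⟨⟨a, hax, haX⟩, ⟨b, hbx, hbX⟩⟩ := hX
  by_contra hno
  have h1 := h.preconnected ⟨a, hax⟩ ⟨b, hbx⟩
  rw [SimpleGraph.reachable_iff_reflTransGen] at h1
  have key : ∀ w : ({x}ᶜ : Set V), ReflTransGen ((underlying E).induce {x}ᶜ).Adj ⟨a, hax⟩ w →
      (w : V) ∈ X := by
    intro w hw
    induction hw with
    | refl => exact haX
    | @tail c d _ hcd ih =>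
      by_contra hd
      apply hno
      have h2 : (underlying E).Adj c d := hcd
      rcases h2.2 with h3 | h3
      · refine ⟨(c, d), ?_⟩
        unfold cross
        rw [mem_filter]
        exact ⟨h3, c.2, d.2, fun h => hd (h.1 ih)⟩
      · refine ⟨(d, c), ?_⟩
        unfold cross
        rw [mem_filter]
        exact ⟨h3, d.2, c.2, fun h => hd (h.2 ih)⟩
  exact hbX (key _ h1)

theorem sb_of_cuts {E : Finset (V × V)} (hl : ∀ v, (v, v) ∉ E) (hn : 3 ≤ Fintype.card V)
    (h1 : ∀ X : Finset V, (∃ u, u ∉ X) → (∃ v, v ∈ X) → ∃ e, e ∈ din E X)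
    (h2 : ∀ x X, Valid x X → ∃ e, e ∈ cross E x X) : StronglyBiconnected E := by
  classical
  have hsc : StronglyConnected E := by
    intro u v
    by_contra hv
    obtain ⟨e, he⟩ := h1 (univ.filter (fun w => ¬ ReflTransGen (fun a b => (a, b) ∈ E) u w))
      ⟨u, fun h => (mem_filter.1 h).2 ReflTransGen.refl⟩ ⟨v, mem_filter.2 ⟨mem_univ _, hv⟩⟩
    unfold din at he
    rw [mem_filter, mem_filter, mem_filter] at he
    apply he.2.2.2
    have h3 : ReflTransGen (fun a b => (a, b) ∈ E) u e.1 := by
      by_contra h4
      exact he.2.1 ⟨mem_univ _, h4⟩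
    exact h3.tail he.1
  have hVne : Nonempty V := Fintype.card_pos_iff.1 (by omega)
  have hadj : ∀ a b, (a, b) ∈ E → (underlying E).Adj a b := by
    intro a b h
    exact ⟨fun h' => hl b (h' ▸ h), Or.inl h⟩
  refine ⟨hsc, ?_, ?_⟩
  · rw [SimpleGraph.connected_iff]
    refine ⟨?_, hVne⟩
    intro u v
    rw [SimpleGraph.reachable_iff_reflTransGen]
    exact ReflTransGen.mono (fun a b h => hadj a b h) u v (hsc u v)
  · intro x
    have hne : ∃ y : V, y ≠ x := by
      by_contra hc
      push Not at hc
      have : Fintype.card V ≤ 1 := Fintype.card_le_one_iff.2 (fun a b => (hc a).trans (hc b).symm)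
      omega
    rw [SimpleGraph.connected_iff]
    refine ⟨?_, ?_⟩
    · intro u v
      by_contra hv
      obtain ⟨e, he⟩ := h2 x (univ.filter (fun w => ∃ hw : w ∈ ({x}ᶜ : Set V),
          ((underlying E).induce {x}ᶜ).Reachable u ⟨w, hw⟩))
        ⟨⟨u, u.2, mem_filter.2 ⟨mem_univ _, u.2, SimpleGraph.Reachable.refl _⟩⟩,
          ⟨v, v.2, fun h => by
            obtain ⟨_, _, h⟩ := mem_filter.1 h
            exact hv h⟩⟩
      unfold cross at he
      rw [mem_filter, mem_filter, mem_filter] at he
      obtain ⟨heE, h3, h4, h5⟩ := he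
      apply h5
      have hadj2 : ((underlying E).induce {x}ᶜ).Adj ⟨e.1, h3⟩ ⟨e.2, h4⟩ := hadj _ _ heE
      constructor
      · rintro ⟨_, hw, hr⟩
        exact ⟨mem_univ _, h4, hr.trans hadj2.reachable⟩
      · rintro ⟨_, hw, hr⟩
        exact ⟨mem_univ _, h3, hr.trans hadj2.symm.reachable⟩
    · obtain ⟨y, hy⟩ := hne
      exact ⟨⟨y, hy⟩⟩

theorem din_ge {E : Finset (V × V)} (h : TwoEdgeStronglyBiconnected E) {X : Finset V}
    (hu : ∃ u, u ∉ X) (hv : ∃ v, v ∈ X) : 2 ≤ (din E X).card := by
  obtain ⟨u, hu⟩ := hu
  obtain ⟨v, hv⟩ := hv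
  obtain ⟨e, he⟩ := din_of_sc h.1.1 hu hv
  have heE : e ∈ E := by unfold din at he; exact (mem_filter.1 he).1
  obtain ⟨e', he'⟩ := din_of_sc (h.2.2 e heE).1 hu hv
  have h1 : e' ∈ din E X := by
    unfold din at he' ⊢
    rw [mem_filter, mem_erase] at he'
    exact mem_filter.2 ⟨he'.1.2, he'.2⟩
  have h2 : e' ≠ e := by
    unfold din at he'
    rw [mem_filter, mem_erase] at he'
    exact he'.1.1
  have h3 : ({e', e} : Finset (V × V)) ⊆ din E X := by
    intro a ha
    rw [mem_insert, mem_singleton] at ha
    rcases ha with rfl | rfl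
    · exact h1
    · exact he
  have h4 := card_le_card h3
  rwa [card_pair h2] at h4

theorem cross_ge {E : Finset (V × V)} (h : TwoEdgeStronglyBiconnected E) {x : V} {X : Finset V}
    (hX : Valid x X) : 2 ≤ (cross E x X).card := by
  obtain ⟨e, he⟩ := cross_of_bi (h.1.2.2 x) hX
  have heE : e ∈ E := by unfold cross at he; exact (mem_filter.1 he).1
  obtain ⟨e', he'⟩ := cross_of_bi ((h.2.2 e heE).2.2 x) hX
  have h1 : e' ∈ cross E x X := by
    unfold cross at he' ⊢
    rw [mem_filter, mem_erase] at he'
    exact mem_filter.2 ⟨he'.1.2, he'.2⟩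
  have h2 : e' ≠ e := by
    unfold cross at he'
    rw [mem_filter, mem_erase] at he'
    exact he'.1.1
  have h3 : ({e', e} : Finset (V × V)) ⊆ cross E x X := by
    intro a ha
    rw [mem_insert, mem_singleton] at ha
    rcases ha with rfl | rfl
    · exact h1
    · exact he
  have h4 := card_le_card h3
  rwa [card_pair h2] at h4

theorem two_of_cuts {E : Finset (V × V)} (hl : ∀ v, (v, v) ∉ E) (hn : 3 ≤ Fintype.card V)
    (h1 : ∀ X : Finset V, (∃ u, u ∉ X) → (∃ v, v ∈ X) → 2 ≤ (din E X).card)
    (h2 : ∀ x X, Valid x X → 2 ≤ (cross E x X).card) : TwoEdgeStronglyBiconnected E := by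
  refine ⟨?_, hn, ?_⟩
  · apply sb_of_cuts hl hn
    · intro X hu hv
      have := h1 X hu hv
      obtain ⟨e, he⟩ := card_pos.1 (show 0 < (din E X).card by omega)
      exact ⟨e, he⟩
    · intro x X hX
      have := h2 x X hX
      obtain ⟨e, he⟩ := card_pos.1 (show 0 < (cross E x X).card by omega)
      exact ⟨e, he⟩
  · intro e _
    apply sb_of_cuts (fun v hv => hl v (mem_erase.1 hv).2) hn
    · intro X hu hv
      have h3 := h1 X hu hv
      obtain ⟨e', he', hne⟩ := exists_mem_ne (show 1 < (din E X).card by omega) e
      refine ⟨e', ?_⟩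
      unfold din at he' ⊢
      rw [mem_filter] at he' ⊢
      exact ⟨mem_erase.2 ⟨hne, he'.1⟩, he'.2⟩
    · intro x X hX
      have h3 := h2 x X hX
      obtain ⟨e', he', hne⟩ := exists_mem_ne (show 1 < (cross E x X).card by omega) e
      refine ⟨e', ?_⟩
      unfold cross at he' ⊢
      rw [mem_filter] at he' ⊢
      exact ⟨mem_erase.2 ⟨hne, he'.1⟩, he'.2⟩

theorem crit_cases {E : Finset (V × V)} (hl : ∀ v, (v, v) ∉ E) (hmin : Minimal2ESB E) {e : V × V}
    (he : e ∈ E) : (∃ X, e ∈ din E X ∧ (din E X).card = 2) ∨
      (∃ x X, Valid x X ∧ e ∈ cross E x X ∧ (cross E x X).card = 2) := by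
  by_contra hno
  push Not at hno
  obtain ⟨hno1, hno2⟩ := hno
  apply hmin.2 e he
  apply two_of_cuts (fun v hv => hl v (mem_erase.1 hv).2) hmin.1.2.1
  · intro X hu hv
    have h1 := din_ge hmin.1 hu hv
    have h2 : din (E.erase e) X = (din E X).erase e := by
      unfold din
      rw [filter_erase]
    rw [h2]
    by_cases h3 : e ∈ din E X
    · have h4 := hno1 X h3
      rw [card_erase_of_mem h3]
      omega
    · rw [erase_eq_of_notMem h3]
      exact h1
  · intro x X hX
    have h1 := cross_ge hmin.1 hX
    have h2 : cross (E.erase e) x X = (cross E x X).erase e := by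
      unfold cross
      rw [filter_erase]
    rw [h2]
    by_cases h3 : e ∈ cross E x X
    · have h4 := hno2 x X hX h3
      rw [card_erase_of_mem h3]
      omega
    · rw [erase_eq_of_notMem h3]
      exact h1

end Cuts

/-! ### The bound -/

section Final

variable {V : Type*} [Fintype V] [DecidableEq V]

theorem din_swap (E : Finset (V × V)) (X : Finset V) :
    din (E.image Prod.swap) Xᶜ = (din E X).image Prod.swap := by
  ext ⟨a, b⟩
  unfold din
  rw [mem_filter, mem_image, mem_image]
  constructor
  · rintro ⟨⟨c, hc, hcs⟩, h1, h2⟩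
    refine ⟨c, ?_, hcs⟩
    rw [mem_filter]
    have e1 : c.2 = a := congrArg Prod.fst hcs
    have e2 : c.1 = b := congrArg Prod.snd hcs
    rw [mem_compl, not_not] at h1
    rw [mem_compl] at h2
    exact ⟨hc, by rw [e2]; exact h2, by rw [e1]; exact h1⟩
  · rintro ⟨c, hc, hcs⟩
    rw [mem_filter] at hc
    have e1 : c.2 = a := congrArg Prod.fst hcs
    have e2 : c.1 = b := congrArg Prod.snd hcs
    refine ⟨⟨c, hc.1, hcs⟩, ?_, ?_⟩
    · rw [mem_compl, not_not]
      show a ∈ X
      rw [← e1]; exact hc.2.2
    · rw [mem_compl]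
      show b ∉ X
      rw [← e2]; exact hc.2.1

theorem bound {E : Finset (V × V)} (hl : ∀ v, (v, v) ∉ E) (hmin : Minimal2ESB E) :
    E.card + 7 ≤ 7 * Fintype.card V := by
  classical
  have hn := hmin.1.2.1
  let W : V → V → Prop := fun u v => (u, v) ∈ E ∨ (v, u) ∈ E
  have hW : ∀ a b, W a b → W b a := fun a b h => h.symm
  obtain ⟨f, hf, hma⟩ := exists_ma W
  let F : Finset (V × V) := univ.filter (fun p => ∃ x X, Valid x X ∧ p ∈ cutAll W f x X ∧
    (cutAll W f x X).card ≤ 2)
  let C : Finset (V × V) := univ.filter (fun p => ∃ x X, Valid x X ∧ p ∈ cutAll W f x X ∧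
    (cutAll W f x X).card ≤ 1)
  let σ : V × V → V × V := fun e => if f e.1 < f e.2 then e else e.swap
  have hσ : ∀ e, σ e = e ∨ σ e = e.swap := by
    intro e
    by_cases h : f e.1 < f e.2
    · left; simp only [σ, h, if_true]
    · right; simp only [σ, h, if_false]
  have hcutlt : ∀ x X (p : V × V), p ∈ cutAll W f x X → f p.1 < f p.2 ∧ W p.1 p.2 := by
    intro x X p hp
    rw [mem_cutAll] at hp
    exact ⟨hp.1, hp.2.2.2.1⟩
  have hcross_cut : ∀ x X e, e ∈ cross E x X → σ e ∈ cutAll W f x X := by
    intro x X e he
    unfold cross at he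
    rw [mem_filter] at he
    obtain ⟨heE, h1, h2, h3⟩ := he
    have hne : f e.1 ≠ f e.2 := by
      intro h
      apply h3
      rw [hf h]
    by_cases h : f e.1 < f e.2
    · have hs : σ e = e := by simp only [σ, h, if_true]
      rw [hs, mem_cutAll]
      exact ⟨h, h1, h2, Or.inl heE, h3⟩
    · have hs : σ e = e.swap := by simp only [σ, h, if_false]
      rw [hs, mem_cutAll]
      refine ⟨?_, h2, h1, Or.inr heE, fun h' => h3 h'.symm⟩
      show f e.2 < f e.1
      omega
  have hcut_cross : ∀ x X p, p ∈ cutAll W f x X → (p ∈ cross E x X ∨ p.swap ∈ cross E x X) ∧ f p.1 < f p.2 := by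
    intro x X p hp
    rw [mem_cutAll] at hp
    obtain ⟨h0, h1, h2, h3, h4⟩ := hp
    refine ⟨?_, h0⟩
    rcases h3 with h3 | h3
    · left
      unfold cross
      rw [mem_filter]
      exact ⟨h3, h1, h2, h4⟩
    · right
      unfold cross
      rw [mem_filter]
      exact ⟨h3, h2, h1, fun h => h4 h.symm⟩
  have hσid : ∀ p : V × V, f p.1 < f p.2 → σ p = p ∧ σ p.swap = p := by
    intro p h
    have h' : ¬ f p.swap.1 < f p.swap.2 := by
      show ¬ f p.2 < f p.1
      omega
    constructor
    · simp only [σ, h, if_true]
    · simp only [σ, h', if_false, Prod.swap_swap]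
  have hcut_image : ∀ x X, cutAll W f x X ⊆ (cross E x X).image σ := by
    intro x X p hp
    obtain ⟨h1, h2⟩ := hcut_cross x X p hp
    rw [mem_image]
    rcases h1 with h1 | h1
    · exact ⟨p, h1, (hσid p h2).1⟩
    · exact ⟨p.swap, h1, (hσid p h2).2⟩
  -- pairs in `C` are digons
  have hCdigon : ∀ p ∈ C, f p.1 < f p.2 ∧ p ∈ E ∧ p.swap ∈ E := by
    intro p hp
    rw [mem_filter] at hp
    obtain ⟨_, x, X, hX, hpX, hcard⟩ := hp
    have h1 := cross_ge hmin.1 hX
    have h2 : cross E x X ⊆ {p, p.swap} := by
      intro e he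
      have h3 := hcross_cut x X e he
      have h4 : σ e = p := card_le_one.1 hcard _ h3 _ hpX
      rw [mem_insert, mem_singleton]
      rcases hσ e with h5 | h5
      · left; rw [← h4, h5]
      · right; rw [← h4, h5, Prod.swap_swap]
    have h3 : cross E x X = {p, p.swap} := by
      apply eq_of_subset_of_card_le h2
      exact (card_le_two).trans h1
    have h4 : ∀ e ∈ cross E x X, e ∈ E := by
      intro e he
      unfold cross at he
      exact (mem_filter.1 he).1
    refine ⟨(hcutlt x X p hpX).1, h4 p (by rw [h3]; simp), h4 p.swap (by rw [h3]; simp)⟩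
  have hCF : C ⊆ F := by
    intro p hp
    rw [mem_filter] at hp ⊢
    obtain ⟨h0, x, X, hX, hpX, hcard⟩ := hp
    exact ⟨h0, x, X, hX, hpX, by omega⟩
  -- the graph of critical pairs
  let G : SimpleGraph V :=
    { Adj := fun a b => (a, b) ∈ C ∨ (b, a) ∈ C
      symm := ⟨fun _ _ h => h.symm⟩
      loopless := ⟨fun a h => by
        have h1 : (a, a) ∈ C := h.elim id id
        have := (hCdigon _ h1).1
        simp at this⟩ }
  have hGE : ∀ a b, G.Adj a b → (a, b) ∈ E := by
    intro a b h
    rcases h with h | h
    · exact (hCdigon _ h).2.1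
    · exact (hCdigon _ h).2.2
  let κ := Fintype.card G.ConnectedComponent
  have hVne : Nonempty V := Fintype.card_pos_iff.1 (by omega)
  obtain ⟨r⟩ := hVne
  -- the four classes of arcs
  let DC : Finset (V × V) := E.filter (fun e => G.Adj e.1 e.2)
  let S : Finset (V × V) := E.filter (fun e => e.swap ∉ E ∧ σ e ∈ F)
  have hcover : E ⊆ (DC ∪ S) ∪ (crit E r G ∪ (crit (E.image Prod.swap) r G).image Prod.swap) := by
    intro e he
    by_cases hG : G.Adj e.1 e.2
    · exact mem_union_left _ (mem_union_left _ (mem_filter.2 ⟨he, hG⟩))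
    · rcases crit_cases hl hmin he with ⟨X, h1, h2⟩ | ⟨x, X, h1, h2, h3⟩
      · apply mem_union_right
        by_cases hr : r ∈ X
        · apply mem_union_right
          rw [mem_image]
          refine ⟨e.swap, ?_, Prod.swap_swap e⟩
          rw [mem_crit]
          refine ⟨mem_image.2 ⟨e, he, rfl⟩, fun h => hG h.symm, Xᶜ, ?_, ?_, ?_⟩
          · rw [mem_compl, not_not]; exact hr
          · rw [din_swap, mem_image]
            exact ⟨e, h1, rfl⟩
          · rw [din_swap, card_image_of_injective _ Prod.swap_injective, h2]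
        · apply mem_union_left
          rw [mem_crit]
          exact ⟨he, hG, X, hr, h1, h2⟩
      · apply mem_union_left
        apply mem_union_right
        rw [mem_filter]
        have h4 := hcross_cut x X e h2
        have h5 : (cutAll W f x X).card ≤ ((cross E x X).image σ).card := card_le_card (hcut_image x X)
        have h6 : ((cross E x X).image σ).card ≤ (cross E x X).card := card_image_le
        refine ⟨he, ?_, mem_filter.2 ⟨mem_univ _, x, X, h1, h4, by omega⟩⟩
        intro hsw
        -- both arcs cross, so the pair is critical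
        have h7 : e.swap ∈ cross E x X := by
          unfold cross at h2 ⊢
          rw [mem_filter] at h2 ⊢
          exact ⟨hsw, h2.2.2.1, h2.2.1, fun h => h2.2.2.2 h.symm⟩
        have h8 : e ≠ e.swap := by
          intro h
          have h9 : e.1 = e.2 := congrArg Prod.fst h
          apply hl e.1
          have : (e.1, e.1) = e := Prod.ext rfl h9
          rw [this]; exact he
        have h9 : ({e, e.swap} : Finset (V × V)) = cross E x X := by
          apply eq_of_subset_of_card_le
          · intro a ha
            rw [mem_insert, mem_singleton] at ha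
            rcases ha with rfl | rfl
            · exact h2
            · exact h7
          · rw [h3, card_pair h8]
        have h10 : σ e = σ e.swap := by
          rcases lt_or_ge (f e.1) (f e.2) with h | h
          · rw [(hσid e h).1, (hσid e h).2]
          · have hne : f e.2 ≠ f e.1 := by
              intro h'
              apply h8
              have := hf h'
              exact Prod.ext this.symm this
            have h' : f e.swap.1 < f e.swap.2 := by
              show f e.2 < f e.1
              omega
            have e1 := (hσid e.swap h').1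
            have e2 := (hσid e.swap h').2
            rw [Prod.swap_swap] at e2
            rw [e1, e2]
        have h11 : (cross E x X).image σ ⊆ {σ e} := by
          intro a ha
          rw [mem_image] at ha
          obtain ⟨b, hb, rfl⟩ := ha
          rw [← h9, mem_insert, mem_singleton] at hb
          rw [mem_singleton]
          rcases hb with rfl | rfl
          · rfl
          · exact h10.symm
        have h12 := card_le_card ((hcut_image x X).trans h11)
        rw [card_singleton] at h12
        have h13 : σ e ∈ C := mem_filter.2 ⟨mem_univ _, x, X, h1, h4, h12⟩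
        apply hG
        rcases hσ e with h | h
        · left; rw [h] at h13; exact h13
        · right; rw [h] at h13; exact h13
  -- counting
  have hDC : DC.card ≤ 2 * C.card := by
    have h1 : DC ⊆ C ∪ C.image Prod.swap := by
      intro e he
      rw [mem_filter] at he
      rw [mem_union, mem_image]
      rcases he.2 with h | h
      · exact Or.inl h
      · exact Or.inr ⟨(e.2, e.1), h, rfl⟩
    have h2 := card_le_card h1
    have h3 := card_union_le C (C.image Prod.swap)
    have h4 : (C.image Prod.swap).card ≤ C.card := card_image_le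
    omega
  have hSC : S.card + C.card ≤ F.card := by
    have hinj : Set.InjOn σ S := by
      intro e he e' he' hee
      rw [mem_coe, mem_filter] at he he'
      rcases hσ e with h | h <;> rcases hσ e' with h' | h' <;> rw [h, h'] at hee
      · exact hee
      · exfalso
        apply he'.2.1
        rw [← hee]; exact he.1
      · exfalso
        apply he.2.1
        rw [hee]; exact he'.1
      · exact Prod.swap_injective hee
    rw [← card_image_of_injOn hinj, ← card_union_of_disjoint]
    · apply card_le_card
      intro p hp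
      rw [mem_union, mem_image] at hp
      rcases hp with ⟨e, he, rfl⟩ | hp
      · exact (mem_filter.1 he).2.2
      · exact hCF hp
    · rw [disjoint_left]
      intro p hp hpC
      rw [mem_image] at hp
      obtain ⟨e, he, rfl⟩ := hp
      rw [mem_filter] at he
      apply he.2.1
      have h1 := hCdigon _ hpC
      rcases hσ e with h | h
      · rw [h] at h1; exact h1.2.2
      · rw [h] at h1; exact h1.2.1
  have hF : F.card ≤ (Fintype.card V - ({r} : Finset V).card) * 3 ∨ F.card ≤ (Fintype.card V - 1) * 3 := by
    right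
    obtain ⟨v0, _, hv0⟩ := exists_min_image (univ : Finset V) f ⟨r, mem_univ _⟩
    have h1 := count_rank hW hf F 3 {v0} (by
      intro p hp
      rw [mem_filter] at hp
      obtain ⟨_, x, X, hX, hpX, hcard⟩ := hp
      have h2 := hcutlt x X p hpX
      have h3 := rank_le hW hf hma x X (s := p.1) (t := p.2) hpX
      refine ⟨h2.1, h2.2, by omega, ?_⟩
      rw [mem_singleton]
      intro h4
      have := hv0 p.1 (mem_univ _)
      rw [← h4] at this
      omega)
    rwa [card_singleton] at h1
  have hC : C.card + 2 * κ ≤ 2 * Fintype.card V := by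
    -- first vertices of the components
    have hfirst : ∀ c : G.ConnectedComponent, ∃ v, G.connectedComponentMk v = c ∧
        ∀ w, G.connectedComponentMk w = c → f v ≤ f w := by
      intro c
      obtain ⟨v, hv⟩ := c.exists_rep
      obtain ⟨w, hw, hmin⟩ := exists_min_image (univ.filter (fun w => G.connectedComponentMk w = c)) f
        ⟨v, mem_filter.2 ⟨mem_univ _, hv⟩⟩
      refine ⟨w, (mem_filter.1 hw).2, ?_⟩
      intro w' hw'
      exact hmin w' (mem_filter.2 ⟨mem_univ _, hw'⟩)
    choose first hfirst1 hfirst2 using hfirst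
    have hcard : (univ.image first).card = κ := by
      rw [card_image_of_injective]
      · rfl
      · intro c c' h
        rw [← hfirst1 c, ← hfirst1 c', h]
    have h1 := count_rank hW hf C 2 (univ.image first) (by
      intro p hp
      have hpC := hp
      rw [mem_filter] at hp
      obtain ⟨_, x, X, hX, hpX, hcard⟩ := hp
      have h2 := hcutlt x X p hpX
      have h3 := rank_le hW hf hma x X (s := p.1) (t := p.2) hpX
      refine ⟨h2.1, h2.2, by omega, ?_⟩
      rw [mem_image]
      rintro ⟨c, _, hc⟩
      have h4 : G.connectedComponentMk p.1 = c := by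
        rw [← hfirst1 c, hc]
        exact SimpleGraph.ConnectedComponent.sound (SimpleGraph.Adj.reachable (Or.inl hpC))
      have h5 := hfirst2 c p.1 h4
      rw [hc] at h5
      omega)
    rw [hcard] at h1
    have h2 : κ ≤ Fintype.card V := by
      rw [← hcard]
      exact card_le_univ _
    omega
  have hI := crit_bound E r G hGE (fun X hX hr => din_ge hmin.1 ⟨r, hr⟩ hX)
  have hO := crit_bound (E.image Prod.swap) r G
    (by
      intro a b h
      rw [mem_image]
      exact ⟨(b, a), hGE b a h.symm, rfl⟩)
    (by
      intro X hX hr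
      have h1 := din_swap E Xᶜ
      rw [compl_compl] at h1
      rw [h1, card_image_of_injective _ Prod.swap_injective]
      apply din_ge hmin.1
      · obtain ⟨v, hv⟩ := hX
        exact ⟨v, fun h => (mem_compl.1 h) hv⟩
      · exact ⟨r, mem_compl.2 hr⟩)
  have hOimg : ((crit (E.image Prod.swap) r G).image Prod.swap).card ≤ (crit (E.image Prod.swap) r G).card :=
    card_image_le
  have h1 := card_le_card hcover
  have h2 := card_union_le (DC ∪ S) (crit E r G ∪ (crit (E.image Prod.swap) r G).image Prod.swap)
  have h3 := card_union_le DC S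
  have h4 := card_union_le (crit E r G) ((crit (E.image Prod.swap) r G).image Prod.swap)
  have hF' : F.card ≤ (Fintype.card V - 1) * 3 := by
    rcases hF with h | h
    · rwa [card_singleton] at h
    · exact h
  have hκI : (crit E r G).card + 2 ≤ Fintype.card V + κ := hI
  have hκO : (crit (E.image Prod.swap) r G).card + 2 ≤ Fintype.card V + κ := hO
  omega

end Final

/-- Every minimal 2-edge-strongly biconnected digraph (without loops) on `n` vertices has at most
`7 (n - 1)` arcs; in particular at most `7 n`. -/
theorem result (V : Type*) [Fintype V] [DecidableEq V] (E : Finset (V × V))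
    (hloop : ∀ v, (v, v) ∉ E) (hmin : Minimal2ESB E) :
    E.card ≤ 7 * (Fintype.card V - 1) ∧ E.card ≤ 7 * Fintype.card V := by
  have h := bound hloop hmin
  have hn := hmin.1.2.1
  omega

end Pool.Agent.Results.MP_93593e_co.ArcBound
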